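import Pool.Agent.H35.NT.Defs

set_option autoImplicit false

namespace Pool.Agent.H35.NT

open Monoid

/-! ## Module A: words in amalgams -/

section A

variable {I : Type} {G : I → Type} [∀ i, Group (G i)] {K : Type} [Group K]
  {φ : ∀ i, K →* G i}

theorem lp_nil : lp φ ([] : List (Σ i, G i)) = 1 := by simp [lp]

theorem lp_cons (s : Σ i, G i) (l : List (Σ i, G i)) :
    lp φ (s :: l) = PushoutI.of (φ := φ) s.1 s.2 * lp φ l := by simp [lp]

theorem lp_append (l m : List (Σ i, G i)) : lp φ (l ++ m) = lp φ l * lp φ m := by simp [lp]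

theorem lp_singleton (s : Σ i, G i) : lp φ [s] = PushoutI.of (φ := φ) s.1 s.2 := by simp [lp]

/-- the word of a reduced list -/
def Red.word {l : List (Σ i, G i)} (hl : Red φ l) : CoprodI.Word G where
  toList := l
  ne_one := fun s hs h1 => hl.1 s hs (by rw [h1]; exact one_mem _)
  chain_ne := hl.2

theorem Red.ofCoprodI_word {l : List (Σ i, G i)} (hl : Red φ l) :
    PushoutI.ofCoprodI (φ := φ) hl.word.prod = lp φ l := by
  simp [lp, CoprodI.Word.prod, Red.word, map_list_prod, List.map_map, Function.comp_def]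

theorem Red.reduced {l : List (Σ i, G i)} (hl : Red φ l) :
    PushoutI.Reduced φ hl.word := fun s hs => hl.1 s hs

theorem Red.tail {s : Σ i, G i} {l : List (Σ i, G i)} (hl : Red φ (s :: l)) : Red φ l :=
  ⟨fun t ht => hl.1 t (List.mem_cons_of_mem _ ht), (List.isChain_cons.1 hl.2).2⟩

/-- A1 -/
theorem red_not_base (hφ : ∀ i, Function.Injective (φ i)) {l : List (Σ i, G i)} (hl : Red φ l)
    (hne : l ≠ []) : lp φ l ∉ (PushoutI.base φ).range := by
  intro h
  rw [← hl.ofCoprodI_word] at h
  have := PushoutI.Reduced.eq_empty_of_mem_range hφ hl.reduced h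
  apply hne
  have h2 := congrArg CoprodI.Word.toList this
  exact h2

/-- every list of syllables can be reduced without increasing the length -/
theorem exists_reduce (φ : ∀ i, K →* G i) (m : List (Σ i, G i)) :
    ∃ (b : K) (l : List (Σ i, G i)), Red φ l ∧ l.length ≤ m.length ∧
      lp φ m = PushoutI.base φ b * lp φ l := by
  classical
  induction m with
  | nil => exact ⟨1, [], ⟨by simp, by simp⟩, le_rfl, by simp [lp_nil]⟩
  | cons s m ih =>
    obtain ⟨b, l, hl, hlen, he⟩ := ih
    obtain ⟨i, a⟩ := s
    have h0 : lp φ (⟨i, a⟩ :: m) = PushoutI.of (φ := φ) i (a * φ i b) * lp φ l := by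
      rw [lp_cons, he, map_mul, PushoutI.of_apply_eq_base, mul_assoc]
    by_cases hg : a * φ i b ∈ (φ i).range
    · obtain ⟨b', hb'⟩ := hg
      refine ⟨b', l, hl, by simp; omega, ?_⟩
      rw [h0, ← hb', PushoutI.of_apply_eq_base]
    · cases l with
      | nil =>
        refine ⟨1, [⟨i, a * φ i b⟩], ⟨?_, by simp⟩, by simp, ?_⟩
        · intro s hs
          rw [List.mem_singleton] at hs
          subst hs
          exact hg
        · rw [h0, lp_nil, lp_singleton, map_one, one_mul, mul_one]
      | cons t l =>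
        obtain ⟨j, t⟩ := t
        by_cases hij : i = j
        · subst hij
          have h1 : lp φ (⟨i, a⟩ :: m) =
              PushoutI.of (φ := φ) i (a * φ i b * t) * lp φ l := by
            rw [h0, lp_cons, map_mul (PushoutI.of i) (a * φ i b) t, mul_assoc]
          by_cases hg2 : a * φ i b * t ∈ (φ i).range
          · obtain ⟨b', hb'⟩ := hg2
            refine ⟨b', l, hl.tail, ?_, ?_⟩
            · simp only [List.length_cons] at hlen ⊢; omega
            · rw [h1, ← hb', PushoutI.of_apply_eq_base]
          · refine ⟨1, ⟨i, a * φ i b * t⟩ :: l, ⟨?_, ?_⟩, ?_, ?_⟩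
            · intro s hs
              rcases List.mem_cons.1 hs with rfl | hs
              · exact hg2
              · exact hl.tail.1 s hs
            · have := hl.2
              rw [List.isChain_cons] at this ⊢
              exact this
            · simp only [List.length_cons] at hlen ⊢; omega
            · rw [h1, lp_cons, map_one, one_mul]
        · refine ⟨1, ⟨i, a * φ i b⟩ :: ⟨j, t⟩ :: l, ⟨?_, ?_⟩, ?_, ?_⟩
          · intro s hs
            rcases List.mem_cons.1 hs with rfl | hs
            · exact hg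
            · exact hl.1 s hs
          · rw [List.isChain_cons]
            refine ⟨?_, hl.2⟩
            intro y hy
            simp only [List.head?_cons, Option.mem_def, Option.some.injEq] at hy
            subst hy
            exact hij
          · simp only [List.length_cons] at hlen ⊢; omega
          · rw [h0, lp_cons (⟨i, a * φ i b⟩ : Σ i, G i), map_one, one_mul]

/-- two reduced lists whose products differ by a base element have the same indices -/
theorem red_idx_eq (hφ : ∀ i, Function.Injective (φ i)) {l l' : List (Σ i, G i)} (hl : Red φ l)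
    (hl' : Red φ l') (b : K) (h : lp φ l = PushoutI.base φ b * lp φ l') :
    l.map Sigma.fst = l'.map Sigma.fst := by
  classical
  obtain ⟨d⟩ := PushoutI.NormalWord.transversal_nonempty φ hφ
  obtain ⟨w, hw, hwi⟩ := PushoutI.Reduced.exists_normalWord_prod_eq d hl.reduced
  obtain ⟨w', hw', hwi'⟩ := PushoutI.Reduced.exists_normalWord_prod_eq d hl'.reduced
  rw [hl.ofCoprodI_word] at hw
  rw [hl'.ofCoprodI_word] at hw'
  have h1 : w.prod = (b • w').prod := by
    rw [PushoutI.NormalWord.prod_base_smul, hw, hw', h]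
  have h2 : w = b • w' := PushoutI.NormalWord.prod_injective h1
  have h3 : w.toList = w'.toList := by rw [h2]; rfl
  have e1 : hl.word.toList = l := rfl
  have e2 : hl'.word.toList = l' := rfl
  rw [e1] at hwi
  rw [e2] at hwi'
  rw [← hwi, ← hwi', h3]

/-- A3 -/
theorem red_len_le (hφ : ∀ i, Function.Injective (φ i)) {l : List (Σ i, G i)} (hl : Red φ l)
    (m : List (Σ i, G i)) (h : lp φ l = lp φ m) : l.length ≤ m.length := by
  obtain ⟨b, l', hl', hlen, he⟩ := exists_reduce φ m
  have h1 := congrArg List.length (red_idx_eq hφ hl hl' b (by rw [h, he]))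
  simp only [List.length_map] at h1
  omega

/-- A2 -/
theorem red_not_of (hφ : ∀ i, Function.Injective (φ i)) {l : List (Σ i, G i)} (hl : Red φ l)
    (h2 : 2 ≤ l.length) (k : I) : lp φ l ∉ (PushoutI.of (φ := φ) k).range := by
  rintro ⟨g, hg⟩
  have := red_len_le hφ hl [⟨k, g⟩] (by rw [lp_singleton]; exact hg.symm)
  simp only [List.length_singleton] at this
  omega

/-- A2'': distinct factors meet in the base -/
theorem of_eq_of (hφ : ∀ i, Function.Injective (φ i)) {i k : I} (hik : i ≠ k) {a : G i} {b : G k}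
    (h : PushoutI.of (φ := φ) i a = PushoutI.of (φ := φ) k b) : ∃ z : K, a = φ i z ∧ b = φ k z := by
  have h1 : PushoutI.of (φ := φ) i a ∈ (PushoutI.of (φ := φ) i).range ⊓
      (PushoutI.of (φ := φ) k).range := ⟨⟨a, rfl⟩, ⟨b, h.symm⟩⟩
  rw [PushoutI.inf_of_range_eq_base_range hφ hik] at h1
  obtain ⟨z, hz⟩ := h1
  refine ⟨z, ?_, ?_⟩
  · apply PushoutI.of_injective hφ i
    rw [PushoutI.of_apply_eq_base, hz]
  · apply PushoutI.of_injective hφ k
    rw [PushoutI.of_apply_eq_base, hz, h]

/-- A2' -/
theorem of_not_of (hφ : ∀ i, Function.Injective (φ i)) {i k : I} (hik : i ≠ k) {a : G i}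
    (ha : a ∉ (φ i).range) : PushoutI.of (φ := φ) i a ∉ (PushoutI.of (φ := φ) k).range := by
  rintro ⟨b, hb⟩
  obtain ⟨z, hz, _⟩ := of_eq_of hφ hik hb.symm
  exact ha ⟨z, hz.symm⟩

/-- every element of an amalgam is the product of a list of syllables -/
theorem exists_lp (k : I) (g : PushoutI φ) : ∃ m : List (Σ i, G i), g = lp φ m := by
  induction g using PushoutI.induction_on with
  | of i a => exact ⟨[⟨i, a⟩], by rw [lp_singleton]⟩
  | base b => exact ⟨[⟨k, φ k b⟩], by rw [lp_singleton, PushoutI.of_apply_eq_base]⟩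
  | mul x y hx hy =>
    obtain ⟨m, rfl⟩ := hx
    obtain ⟨m', rfl⟩ := hy
    exact ⟨m ++ m', (lp_append m m').symm⟩

set_option linter.unusedVariables false in
/-- A4 -/
theorem exists_red (hφ : ∀ i, Function.Injective (φ i)) (k : I) (g : PushoutI φ) :
    ∃ (a : G k) (l : List (Σ i, G i)), Red φ l ∧ (∀ s ∈ l.head?, s.1 ≠ k) ∧
      g = PushoutI.of (φ := φ) k a * lp φ l := by
  obtain ⟨m, rfl⟩ := exists_lp (φ := φ) k g
  obtain ⟨b, l, hl, -, he⟩ := exists_reduce φ m
  cases l with
  | nil =>
    exact ⟨φ k b, [], hl, by simp, by rw [he, PushoutI.of_apply_eq_base]⟩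
  | cons t l =>
    obtain ⟨j, t⟩ := t
    by_cases hjk : j = k
    · subst hjk
      refine ⟨φ j b * t, l, hl.tail, ?_, ?_⟩
      · intro s hs
        have := (List.isChain_cons.1 hl.2).1 s hs
        exact fun h => this h.symm
      · rw [he, lp_cons, map_mul, PushoutI.of_apply_eq_base, mul_assoc]
    · refine ⟨φ k b, ⟨j, t⟩ :: l, hl, ?_, ?_⟩
      · intro s hs
        simp only [List.head?_cons, Option.mem_def, Option.some.injEq] at hs
        subst hs
        exact hjk
      · rw [he, PushoutI.of_apply_eq_base]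

end A

end Pool.Agent.H35.NT
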